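import Mathlib
import Pool.Agent.Helper36.BaseSize.Defs

set_option autoImplicit false

/-!
# The determining set of a finite group
-/

namespace Pool.Agent.Helper85.DetSet

open Pool.Agent.Helper36.BaseSize

/-- The determining set of `G`: the base sizes of the natural actions of the automorphism groups
`Γ ≃g Γ` on the vertices, for the finite simple graphs `Γ` whose automorphism group is isomorphic
to `G`. -/
def determiningSet (G : Type) [Group G] : Set ℕ :=
  {n | ∃ (V : Type) (_ : Finite V) (Γ : SimpleGraph V),
    Nonempty (G ≃* (Γ ≃g Γ)) ∧ IsBaseSize (Γ ≃g Γ) V n}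

end Pool.Agent.Helper85.DetSet
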