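import Mathlib

set_option autoImplicit false

/-!
# The group `C_2 wr C_5` of order 160: definitions and finite facts
-/

namespace Pool.Agent.Helper85.DetSet

/-- The group of sign vectors. -/
abbrev NN : Type := Fin 5 → ZMod 2

/-- The pairing. -/
def dot (x n : NN) : ZMod 2 := x 0 * n 0 + x 1 * n 1 + x 2 * n 2 + x 3 * n 3 + x 4 * n 4

/-- Cyclic rotation. -/
def rot (k : Fin 5) (n : NN) : NN := fun i => n (i - k)

/-- The group `C_2 wr C_5`: the pair `(v, b)` acts on `Fin 5 × ZMod 2` by
`(i, e) ↦ (i + b, e + v i)`. -/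
@[ext] structure WW where
  /-- the sign vector -/
  v : NN
  /-- the rotation -/
  b : Fin 5

namespace WW

instance : Mul WW := ⟨fun g h => ⟨fun i => h.v i + g.v (i + h.b), h.b + g.b⟩⟩
instance : One WW := ⟨⟨0, 0⟩⟩
instance : Inv WW := ⟨fun g => ⟨fun i => - g.v (i - g.b), - g.b⟩⟩

@[simp] theorem mul_v (g h : WW) (i : Fin 5) : (g * h).v i = h.v i + g.v (i + h.b) := rfl
@[simp] theorem mul_b (g h : WW) : (g * h).b = h.b + g.b := rfl
@[simp] theorem one_v (i : Fin 5) : (1 : WW).v i = 0 := rfl
@[simp] theorem one_b : (1 : WW).b = 0 := rfl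
@[simp] theorem inv_v (g : WW) (i : Fin 5) : (g⁻¹).v i = - g.v (i - g.b) := rfl
@[simp] theorem inv_b (g : WW) : (g⁻¹).b = - g.b := rfl

instance : Group WW where
  mul_assoc a b c := by
    refine WW.ext (funext fun i => ?_) ?_
    · simp only [mul_v, mul_b, add_assoc]
    · simp only [mul_b, add_assoc]
  one_mul a := by
    ext i
    · simp
    · simp
  mul_one a := by
    ext i
    · simp
    · simp
  inv_mul_cancel a := by
    refine WW.ext (funext fun i => ?_) ?_
    · simpa using CharTwo.add_self_eq_zero (a.v i)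
    · simp

/-- The group is finite. -/
def equivProd : WW ≃ NN × Fin 5 where
  toFun g := (g.v, g.b)
  invFun p := ⟨p.1, p.2⟩
  left_inv _ := rfl
  right_inv _ := rfl

instance : Finite WW := Finite.of_equiv _ equivProd.symm

end WW

/-- The sign changes. -/
def io (n : NN) : WW := ⟨n, 0⟩

/-- The rotations. -/
def Sh (k : Fin 5) : WW := ⟨0, k⟩

theorem two_a (a c : ZMod 2) : a + (c + a) = c := by
  rw [add_comm c a, ← add_assoc, CharTwo.add_self_eq_zero, zero_add]

theorem io_add (n m : NN) : io (n + m) = io n * io m := by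
  refine WW.ext (funext fun i => ?_) rfl
  change n i + m i = m i + n (i + 0)
  rw [add_zero, add_comm]

theorem io_zero : io 0 = 1 := rfl

theorem io_inj {n : NN} (h : io n = 1) : n = 0 := by
  have := congrArg WW.v h
  exact this

theorem conj_io (g : WW) (n : NN) : g⁻¹ * io n * g = io (rot (-g.b) n) := by
  refine WW.ext (funext fun i => ?_) ?_
  · simpa [io, rot, WW.mul_v] using two_a (g.v i) (n (i + g.b))
  · simp [io]

theorem conj_io' (g : WW) (n : NN) : g * io n * g⁻¹ = io (rot g.b n) := by
  refine WW.ext (funext fun i => ?_) ?_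
  · simpa [io, rot, WW.mul_v, sub_eq_add_neg] using two_a (g.v (i + -g.b)) (n (i + -g.b))
  · simp [io]

theorem eq_io_of_b {g : WW} (h : g.b = 0) : g = io g.v := WW.ext rfl h

theorem pow_b (g : WW) (m : ℕ) : (g ^ m).b = m • g.b := by
  induction m with
  | zero => rw [pow_zero, zero_nsmul]; rfl
  | succ m ih => rw [pow_succ, WW.mul_b, ih, succ_nsmul, add_comm]

theorem exists_smul : ∀ k : Fin 5, k ≠ 0 → ∀ j : Fin 5, ∃ m : Fin 5, (m : ℕ) • k = j := by
  decide

theorem io_self (n : NN) : io n * io n = 1 := by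
  rw [← io_add]
  have : n + n = 0 := by
    funext i
    exact CharTwo.add_self_eq_zero (n i)
  rw [this, io_zero]

theorem io_inv (n : NN) : (io n)⁻¹ = io n := inv_eq_of_mul_eq_one_right (io_self n)

theorem comm_io (g : WW) (n : NN) : g⁻¹ * (io n)⁻¹ * g * io n = io (rot (-g.b) n + n) := by
  rw [io_inv, conj_io, io_add]

end Pool.Agent.Helper85.DetSet
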