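import Mathlib
import Pool.Agent.Helper85.DetSet.Group

set_option autoImplicit false

/-!
# Finite facts on sign vectors of length 5
-/

namespace Pool.Agent.Helper85.DetSet

/-- Decoding of a number below 32. -/
def dec (m : ℕ) : NN := fun i => if m.testBit i then 1 else 0

/-- Parity of the number of binary digits 1 of a number below 32. -/
def par (t : ℕ) : ℕ := (t ^^^ (t >>> 1) ^^^ (t >>> 2) ^^^ (t >>> 3) ^^^ (t >>> 4)) &&& 1

/-- The pairing on codes. -/
def dotN (x n : ℕ) : ℕ := par (x &&& n)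

/-- The rotation on codes. -/
def rotN (k n : ℕ) : ℕ := ((n <<< k) ||| (n >>> (5 - k))) &&& 31

theorem dot_dec : ∀ x < 32, ∀ n < 32, dot (dec x) (dec n) = 0 ↔ dotN x n = 0 := by
  decide

theorem rot_dec : ∀ k : Fin 5, ∀ n < 32, rot k (dec n) = dec (rotN k n) := by
  decide

theorem exists_dec (n : NN) : ∃ m < 32, dec m = n := by
  revert n
  simp only [Fin.forall_fin_succ_pi, Fin.forall_fin_zero_pi]
  decide

theorem rotN_lt (k n : ℕ) : rotN k n < 32 := by
  unfold rotN
  exact lt_of_le_of_lt Nat.and_le_right (by norm_num)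

theorem dec_zero : dec 0 = 0 := by decide

theorem dec_one : dec 31 = 1 := by decide

theorem xor_dec : ∀ x < 32, ∀ n < 32, dec x + dec n = 1 → x ^^^ n = 31 := by
  decide

theorem dot_rot_dec {x n : ℕ} (hx : x < 32) (hn : n < 32) (k : Fin 5) :
    dot (dec x) (rot k (dec n)) = 0 ↔ dotN x (rotN k n) = 0 := by
  rw [rot_dec k n hn, dot_dec x hx _ (rotN_lt _ _)]

/-- Bounded quantification, as a boolean. -/
def allB (p : ℕ → Bool) : ℕ → Bool
  | 0 => true
  | m + 1 => p m && allB p m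

theorem allB_spec (p : ℕ → Bool) : ∀ m, allB p m = true → ∀ i < m, p i = true
  | 0, _, i, hi => absurd hi (Nat.not_lt_zero i)
  | m + 1, h, i, hi => by
    unfold allB at h
    rw [Bool.and_eq_true] at h
    rcases Nat.lt_succ_iff_lt_or_eq.1 hi with h1 | h1
    · exact allB_spec p m h.2 i h1
    · rw [h1]; exact h.1

/-- `n` is killed by `x` and `y`. -/
def kill (x y n : ℕ) : Bool := (dotN x n).beq 0 && (dotN y n).beq 0

/-- Three translates suffice. -/
def chk1 (x y i j : ℕ) : Bool :=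
  allB (fun n => !(kill x y n && kill x y (rotN i n) && kill x y (rotN j n)) || n.beq 0) 32

/-- Two translates suffice, up to the all-ones vector. -/
def chk2 (x y i : ℕ) : Bool :=
  allB (fun n => !(kill x y n && kill x y (rotN i n)) || n.beq 0 || n.beq 31) 32

/-- One of the two holds. -/
def chk (x y : ℕ) : Bool :=
  x.beq 0 || y.beq 0 || x.beq 31 || y.beq 31 || x.beq y || (x ^^^ y).beq 31 ||
    chk1 x y 1 2 || chk1 x y 1 3 || chk2 x y 1 || chk2 x y 2

theorem chk_all : allB (fun x => allB (fun y => chk x y) 32) 32 = true := by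
  decide +kernel

theorem beq_iff {a b : ℕ} : a.beq b = true ↔ a = b :=
  ⟨Nat.eq_of_beq_eq_true, fun h => h ▸ Nat.beq_refl a⟩

theorem kill_of {x y n : ℕ} (hx : dotN x n = 0) (hy : dotN y n = 0) : kill x y n = true := by
  unfold kill
  rw [hx, hy]
  rfl

theorem caseA (x y : NN) (hx : x ≠ 0) (hy : y ≠ 0) (hx1 : x ≠ 1) (hy1 : y ≠ 1) (hxy : x ≠ y)
    (hs : x + y ≠ 1) :
    (∃ i j : Fin 5, ∀ n, dot x n = 0 → dot y n = 0 → dot x (rot i n) = 0 → dot y (rot i n) = 0 →
      dot x (rot j n) = 0 → dot y (rot j n) = 0 → n = 0) ∨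
    (∃ i : Fin 5, ∀ n, dot x n = 0 → dot y n = 0 → dot x (rot i n) = 0 → dot y (rot i n) = 0 →
      n = 0 ∨ n = 1) := by
  obtain ⟨a, ha, rfl⟩ := exists_dec x
  obtain ⟨b, hb, rfl⟩ := exists_dec y
  have h := allB_spec _ _ (allB_spec _ _ chk_all a ha) b hb
  have d1 : a ≠ 0 := fun h => hx (by rw [h, dec_zero])
  have d2 : b ≠ 0 := fun h => hy (by rw [h, dec_zero])
  have d3 : a ≠ 31 := fun h => hx1 (by rw [h, dec_one])
  have d4 : b ≠ 31 := fun h => hy1 (by rw [h, dec_one])
  have d5 : a ≠ b := fun h => hxy (by rw [h])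
  have e1 : ∀ i j : Fin 5, chk1 a b i j = true → ∀ n, dot (dec a) n = 0 → dot (dec b) n = 0 →
      dot (dec a) (rot i n) = 0 → dot (dec b) (rot i n) = 0 → dot (dec a) (rot j n) = 0 →
      dot (dec b) (rot j n) = 0 → n = 0 := by
    intro i j hc n
    obtain ⟨m, hm, rfl⟩ := exists_dec n
    rw [dot_dec a ha m hm, dot_dec b hb m hm, dot_rot_dec ha hm, dot_rot_dec hb hm,
      dot_rot_dec ha hm, dot_rot_dec hb hm]
    intro h1 h2 h3 h4 h5 h6
    have h7 := allB_spec _ _ hc m hm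
    simp only [kill_of h1 h2, kill_of h3 h4, kill_of h5 h6, Bool.and_self, Bool.not_true,
      Bool.false_or, beq_iff] at h7
    rw [h7, dec_zero]
  have e2 : ∀ i : Fin 5, chk2 a b i = true → ∀ n, dot (dec a) n = 0 → dot (dec b) n = 0 →
      dot (dec a) (rot i n) = 0 → dot (dec b) (rot i n) = 0 → n = 0 ∨ n = 1 := by
    intro i hc n
    obtain ⟨m, hm, rfl⟩ := exists_dec n
    rw [dot_dec a ha m hm, dot_dec b hb m hm, dot_rot_dec ha hm, dot_rot_dec hb hm]
    intro h1 h2 h3 h4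
    have h7 := allB_spec _ _ hc m hm
    simp only [kill_of h1 h2, kill_of h3 h4, Bool.and_self, Bool.not_true,
      Bool.false_or, Bool.or_eq_true, beq_iff] at h7
    rcases h7 with h7 | h7
    · left; rw [h7, dec_zero]
    · right; rw [h7, dec_one]
  unfold chk at h
  simp only [Bool.or_eq_true, beq_iff] at h
  rcases h with ((((((((h | h) | h) | h) | h) | h) | h) | h) | h) | h
  · exact absurd h d1
  · exact absurd h d2
  · exact absurd h d3
  · exact absurd h d4
  · exact absurd h d5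
  · exfalso
    apply hs
    have h1 : ∀ x < 32, ∀ n < 32, x ^^^ n = 31 → dec x + dec n = 1 := by decide
    exact h1 a ha b hb h
  · exact Or.inl ⟨1, 2, e1 1 2 h⟩
  · exact Or.inl ⟨1, 3, e1 1 3 h⟩
  · exact Or.inr ⟨1, e2 1 h⟩
  · exact Or.inr ⟨2, e2 2 h⟩

theorem allB_false (p : ℕ → Bool) : ∀ m, allB p m = false → ∃ i < m, p i = false
  | 0, h => by simp [allB] at h
  | m + 1, h => by
    unfold allB at h
    rw [Bool.and_eq_false_iff] at h
    rcases h with h | h
    · exact ⟨m, Nat.lt_succ_self m, h⟩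
    · obtain ⟨i, hi, h1⟩ := allB_false p m h
      exact ⟨i, Nat.lt_succ_of_lt hi, h1⟩

theorem factB_B : allB (fun w => allB (fun n => w.beq 0 || w.beq 31 || !(dotN w 31).beq 0 ||
    !(dotN 31 n).beq 0 || !(dotN w (rotN 1 n)).beq 0 || !(dotN w (rotN 2 n)).beq 0 ||
    !(dotN w (rotN 3 n)).beq 0 || !(dotN w (rotN 4 n)).beq 0 || n.beq 0) 32) 32 = true := by
  decide +kernel

theorem factD_B : allB (fun w => allB (fun k => w.beq 0 || w.beq 31 || !(dotN w 31).beq 0 ||
    k.beq 0 || !(allB (fun n => !((dotN 31 n).beq 0 && (dotN w (rotN k n)).beq 0 &&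
      !(dotN w n).beq 0)) 32)) 5) 32 = true := by
  decide +kernel

theorem factB_N (w : ℕ) (hw : w < 32) (h0 : w ≠ 0) (h31 : w ≠ 31) (h1 : dotN w 31 = 0) (n : ℕ)
    (hn : n < 32) (h2 : dotN 31 n = 0)
    (k1 : dotN w (rotN 1 n) = 0) (k2 : dotN w (rotN 2 n) = 0) (k3 : dotN w (rotN 3 n) = 0)
    (k4 : dotN w (rotN 4 n) = 0) : n = 0 := by
  have h := allB_spec _ _ (allB_spec _ _ factB_B w hw) n hn
  simp only [h1, h2, k1, k2, k3, k4, Bool.or_eq_true, beq_iff, Bool.not_eq_true'] at h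
  have e : Nat.beq 0 0 = true := rfl
  rw [e] at h
  simpa [h0, h31] using h

theorem factD_N (w : ℕ) (hw : w < 32) (h0 : w ≠ 0) (h31 : w ≠ 31) (h1 : dotN w 31 = 0) (k : ℕ)
    (hk : k < 5) (hk0 : k ≠ 0) :
    ∃ n < 32, dotN 31 n = 0 ∧ dotN w (rotN k n) = 0 ∧ dotN w n ≠ 0 := by
  have h := allB_spec _ _ (allB_spec _ _ factD_B w hw) k hk
  simp only [Bool.or_eq_true, beq_iff, Bool.not_eq_true'] at h
  rcases h with (((h | h) | h) | h) | h
  · exact absurd h h0
  · exact absurd h h31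
  · rw [h1] at h
    exact absurd h (by decide)
  · exact absurd h hk0
  · obtain ⟨n, hn, h2⟩ := allB_false _ _ h
    simp only [Bool.not_eq_false', Bool.and_eq_true, beq_iff, Bool.not_eq_true'] at h2
    refine ⟨n, hn, h2.1.1, h2.1.2, fun h3 => ?_⟩
    have h4 := h2.2
    rw [h3] at h4
    exact absurd h4 (by decide)

theorem factB (w : NN) (h0 : w ≠ 0) (h1 : w ≠ 1) (h2 : dot w 1 = 0) (n : NN) (hn : dot 1 n = 0)
    (hk : ∀ k : Fin 5, k ≠ 0 → dot w (rot k n) = 0) : n = 0 := by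
  obtain ⟨a, ha, rfl⟩ := exists_dec w
  obtain ⟨m, hm, rfl⟩ := exists_dec n
  rw [← dec_one] at h1 h2 hn
  rw [← dec_zero] at h0 ⊢
  rw [dot_dec a ha 31 (by norm_num)] at h2
  rw [dot_dec 31 (by norm_num) m hm] at hn
  congr 1
  exact factB_N a ha (fun h => h0 (by rw [h])) (fun h => h1 (by rw [h])) h2 m hm hn
    ((dot_rot_dec ha hm 1).1 (hk 1 (by decide))) ((dot_rot_dec ha hm 2).1 (hk 2 (by decide)))
    ((dot_rot_dec ha hm 3).1 (hk 3 (by decide))) ((dot_rot_dec ha hm 4).1 (hk 4 (by decide)))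

theorem factD (w : NN) (h0 : w ≠ 0) (h1 : w ≠ 1) (h2 : dot w 1 = 0) (k : Fin 5) (hk : k ≠ 0) :
    ∃ n, dot 1 n = 0 ∧ dot w (rot k n) = 0 ∧ dot w n = 1 := by
  obtain ⟨a, ha, rfl⟩ := exists_dec w
  rw [← dec_one] at h1 h2
  rw [← dec_zero] at h0
  rw [dot_dec a ha 31 (by norm_num)] at h2
  obtain ⟨m, hm, h3, h4, h5⟩ := factD_N a ha (fun h => h0 (by rw [h])) (fun h => h1 (by rw [h]))
    h2 k k.2 (fun h => hk (Fin.ext h))
  refine ⟨dec m, ?_, (dot_rot_dec ha hm k).2 h4, ?_⟩
  · rw [← dec_one]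
    exact (dot_dec 31 (by norm_num) m hm).2 h3
  · have h6 : dot (dec a) (dec m) ≠ 0 := fun h => h5 ((dot_dec a ha m hm).1 h)
    generalize dot (dec a) (dec m) = t at h6
    revert h6
    revert t
    decide

theorem dot_add_left (x y n : NN) : dot (x + y) n = dot x n + dot y n := by
  simp only [dot, Pi.add_apply]
  ring

theorem dot_add_right (x n m : NN) : dot x (n + m) = dot x n + dot x m := by
  simp only [dot, Pi.add_apply]
  ring

theorem dot_one_eq (n : NN) : dot 1 n = ∑ i, n i := by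
  rw [Fin.sum_univ_five]
  simp [dot]

theorem dot_one_rot (k : Fin 5) (n : NN) : dot 1 (rot k n) = dot 1 n := by
  rw [dot_one_eq, dot_one_eq]
  exact Equiv.sum_comp (Equiv.subRight k) n

theorem dot_zero_left (n : NN) : dot 0 n = 0 := by simp [dot]

theorem rot_rot (k l : Fin 5) (n : NN) : rot k (rot l n) = rot (k + l) n := by
  funext i
  simp only [rot]
  congr 1
  rw [sub_sub]

theorem rot_zero (n : NN) : rot 0 n = n := by
  funext i
  simp [rot]

/-- The first sign vector. -/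
def e0 : NN := ![1, 0, 0, 0, 0]

theorem e0_fact : ∀ k : Fin 5, (rot k e0 + e0 = 0 ∨ rot k e0 + e0 = 1) → k = 0 := by
  decide

/-- Duality. -/
theorem exists_dot (U : Submodule (ZMod 2) NN) (n : NN) (hn : n ∉ U) :
    ∃ x : NN, (∀ m ∈ U, dot x m = 0) ∧ dot x n = 1 := by
  obtain ⟨f, hf, hU⟩ := Submodule.exists_dual_map_eq_bot_of_notMem hn inferInstance
  have key : ∀ m : NN, f m = dot (fun i => f (Pi.single i 1)) m := by
    intro m
    have h1 : m = ∑ i, m i • (Pi.single i 1 : NN) := by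
      funext j
      rw [Finset.sum_apply, Finset.sum_eq_single j]
      · simp
      · intro i _ hij
        simp [Pi.single_apply, Ne.symm hij]
      · simp
    conv_lhs => rw [h1]
    rw [map_sum, Fin.sum_univ_five]
    simp only [map_smul, smul_eq_mul, dot]
    ring
  refine ⟨fun i => f (Pi.single i 1), ?_, ?_⟩
  · intro m hm
    rw [← key m]
    have h1 : f m ∈ U.map f := Submodule.mem_map_of_mem hm
    rw [hU] at h1
    exact h1
  · rw [← key n]
    revert hf
    generalize f n = t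
    revert t
    decide

end Pool.Agent.Helper85.DetSet
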