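import Mathlib
import Pool.Agent.Helper85.DetSet.Defs
import Pool.Agent.Helper85.DetSet.Group

set_option autoImplicit false

/-!
# A graph with automorphism group `C_2 wr C_5` and base size 5

Vertices: `(i, 0)`, `(i, 1)` (twins, adjacent to `(i, 2)` and to `(i + 1, 3)`), `(i, 2)` (adjacent
to `(i, 3)`), `(i, 3)` (pairwise adjacent), `i : Fin 5`. The degrees are 2, 2, 3, 7.
-/

namespace Pool.Agent.Helper85.DetSet

open Pool.Agent.Helper36.BaseSize

/-- The vertices. -/
abbrev VV : Type := Fin 5 × Fin 4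

/-- The adjacency relation (a symmetric boolean function). -/
def adjB (p q : VV) : Bool :=
  (decide (p.2 < 2) && decide (q.2 = 2) && decide (p.1 = q.1)) ||
  (decide (q.2 < 2) && decide (p.2 = 2) && decide (p.1 = q.1)) ||
  (decide (p.2 < 2) && decide (q.2 = 3) && decide (q.1 = p.1 + 1)) ||
  (decide (q.2 < 2) && decide (p.2 = 3) && decide (p.1 = q.1 + 1)) ||
  (decide (p.2 = 2) && decide (q.2 = 3) && decide (p.1 = q.1)) ||
  (decide (q.2 = 2) && decide (p.2 = 3) && decide (p.1 = q.1)) ||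
  (decide (p.2 = 3) && decide (q.2 = 3) && decide (p.1 ≠ q.1))

/-- The graph. -/
def Γ₀ : SimpleGraph VV where
  Adj p q := adjB p q = true
  symm := ⟨by decide⟩
  loopless := ⟨by decide⟩

instance : DecidableRel Γ₀.Adj := fun p q => inferInstanceAs (Decidable (adjB p q = true))

/-- The number of neighbours. -/
def dg (p : VV) : ℕ := (Finset.univ.filter fun q => adjB p q = true).card

theorem dg_eq : ∀ i : Fin 5, dg (i, 0) = 2 ∧ dg (i, 1) = 2 ∧ dg (i, 2) = 3 ∧ dg (i, 3) = 7 := by
  decide

theorem dg_iso (φ : Γ₀ ≃g Γ₀) (p : VV) : dg (φ p) = dg p := by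
  unfold dg
  symm
  refine Finset.card_bij (fun q _ => φ q) ?_ ?_ ?_
  · intro q hq
    rw [Finset.mem_filter] at hq ⊢
    exact ⟨Finset.mem_univ _, (φ.map_adj_iff (v := p) (w := q)).2 hq.2⟩
  · intro q _ q' _ h
    exact φ.injective h
  · intro q hq
    rw [Finset.mem_filter] at hq
    refine ⟨φ.symm q, ?_, φ.apply_symm_apply q⟩
    rw [Finset.mem_filter]
    refine ⟨Finset.mem_univ _, (φ.map_adj_iff (v := p) (w := φ.symm q)).1 ?_⟩
    rw [φ.apply_symm_apply]
    exact hq.2

/-- The action of the group on the second coordinates. -/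
def twist (t : ZMod 2) (s : Fin 4) : Fin 4 :=
  if s = 0 then (if t = 0 then 0 else 1) else if s = 1 then (if t = 0 then 1 else 0) else s

theorem twist_add : ∀ t t' : ZMod 2, ∀ s : Fin 4, twist (t + t') s = twist t' (twist t s) := by
  decide

theorem twist_zero : ∀ s : Fin 4, twist 0 s = s := by decide

theorem twist_lt : ∀ (t : ZMod 2) (s : Fin 4), twist t s < 2 ↔ s < 2 := by decide

theorem twist_two : ∀ (t : ZMod 2) (s : Fin 4), twist t s = 2 ↔ s = 2 := by decide

theorem twist_three : ∀ (t : ZMod 2) (s : Fin 4), twist t s = 3 ↔ s = 3 := by decide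

/-- The action of the group on the vertices. -/
def actV (g : WW) (p : VV) : VV := (p.1 + g.b, twist (g.v p.1) p.2)

theorem actV_mul (g h : WW) (p : VV) : actV (g * h) p = actV g (actV h p) := by
  unfold actV
  refine Prod.ext ?_ ?_
  · simp only [WW.mul_b, add_assoc]
  · simp only [WW.mul_v]
    rw [twist_add]

theorem actV_one (p : VV) : actV 1 p = p := by
  unfold actV
  refine Prod.ext ?_ ?_
  · simp
  · simp only [WW.one_v]
    exact twist_zero _

theorem actV_adj (g : WW) (p q : VV) : adjB (actV g p) (actV g q) = adjB p q := by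
  unfold adjB actV
  simp only [twist_lt, twist_two, twist_three, add_left_inj, ne_eq,
    add_right_comm _ g.b 1]

/-- The automorphisms given by the group. -/
def FF (g : WW) : Γ₀ ≃g Γ₀ where
  toFun := actV g
  invFun := actV g⁻¹
  left_inv p := by rw [← actV_mul, inv_mul_cancel, actV_one]
  right_inv p := by rw [← actV_mul, mul_inv_cancel, actV_one]
  map_rel_iff' := by
    intro p q
    change adjB (actV g p) (actV g q) = true ↔ adjB p q = true
    rw [actV_adj]

theorem FF_mul (g h : WW) : FF (g * h) = FF g * FF h := by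
  ext p : 1
  exact actV_mul g h p

theorem FF_inj : Function.Injective FF := by
  intro g h hgh
  have h1 : ∀ p, actV g p = actV h p := fun p => congrArg (fun φ : Γ₀ ≃g Γ₀ => φ p) hgh
  refine WW.ext (funext fun i => ?_) ?_
  · have h2 := congrArg Prod.snd (h1 (i, 0))
    simp only [actV] at h2
    revert h2
    generalize g.v i = a
    generalize h.v i = c
    revert a c
    decide
  · have h2 := congrArg Prod.fst (h1 (0, 0))
    simpa [actV] using h2

theorem adj_23 : ∀ i j : Fin 5, adjB (i, 2) (j, 3) = true ↔ i = j := by decide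

theorem adj_a2 : ∀ i j : Fin 5, ∀ s : Fin 4, s < 2 → (adjB (i, s) (j, 2) = true ↔ i = j) := by
  decide

theorem adj_a3 : ∀ i j : Fin 5, ∀ s : Fin 4, s < 2 → (adjB (i, s) (j, 3) = true ↔ j = i + 1) := by
  decide

theorem snd_of_dg : ∀ p : VV, (dg p = 2 → p.2 < 2) ∧ (dg p = 3 → p.2 = 2) ∧
    (dg p = 7 → p.2 = 3) := by
  rintro ⟨i, s⟩
  obtain ⟨h0, h1, h2, h3⟩ := dg_eq i
  fin_cases s
  · refine ⟨fun _ => (by decide : (0 : Fin 4) < 2), fun h => ?_, fun h => ?_⟩ <;>
      exact absurd (h0.symm.trans h) (by decide)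
  · refine ⟨fun _ => (by decide : (1 : Fin 4) < 2), fun h => ?_, fun h => ?_⟩ <;>
      exact absurd (h1.symm.trans h) (by decide)
  · refine ⟨fun h => ?_, fun _ => rfl, fun h => ?_⟩ <;> exact absurd (h2.symm.trans h) (by decide)
  · refine ⟨fun h => ?_, fun h => ?_, fun _ => rfl⟩ <;> exact absurd (h3.symm.trans h) (by decide)

theorem FF_surj : Function.Surjective FF := by
  intro φ
  have hadj : ∀ p q, adjB (φ p) (φ q) = true ↔ adjB p q = true := fun p q =>
    φ.map_adj_iff (v := p) (w := q)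
  have h2 : ∀ i, (φ (i, 2)).2 = 2 := fun i =>
    (snd_of_dg _).2.1 ((dg_iso φ _).trans (dg_eq i).2.2.1)
  have h3 : ∀ i, (φ (i, 3)).2 = 3 := fun i =>
    (snd_of_dg _).2.2 ((dg_iso φ _).trans (dg_eq i).2.2.2)
  have h0 : ∀ i, (φ (i, 0)).2 < 2 := fun i =>
    (snd_of_dg _).1 ((dg_iso φ _).trans (dg_eq i).1)
  have h1 : ∀ i, (φ (i, 1)).2 < 2 := fun i =>
    (snd_of_dg _).1 ((dg_iso φ _).trans (dg_eq i).2.1)
  set π : Fin 5 → Fin 5 := fun i => (φ (i, 2)).1 with hπ
  have e2 : ∀ i, φ (i, 2) = (π i, 2) := fun i => Prod.ext rfl (h2 i)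
  have e3 : ∀ i, φ (i, 3) = (π i, 3) := by
    intro i
    have a1 := (hadj (i, 2) (i, 3)).2 ((adj_23 i i).2 rfl)
    have a2 : φ (i, 3) = ((φ (i, 3)).1, 3) := Prod.ext rfl (h3 i)
    rw [e2, a2, adj_23] at a1
    rw [a2, ← a1]
  have ea : ∀ i s, s < 2 → (φ (i, s)).2 < 2 → (φ (i, s)).1 = π i := by
    intro i s hs hs'
    have a1 := (hadj (i, s) (i, 2)).2 ((adj_a2 i i s hs).2 rfl)
    have a2 : φ (i, s) = ((φ (i, s)).1, (φ (i, s)).2) := rfl
    rw [e2, a2, adj_a2 _ _ _ hs'] at a1
    exact a1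
  have es : ∀ i, π (i + 1) = π i + 1 := by
    intro i
    have a1 := (hadj (i, 0) (i + 1, 3)).2 ((adj_a3 i (i + 1) 0 (by decide)).2 rfl)
    have a2 : φ (i, 0) = (π i, (φ (i, 0)).2) := Prod.ext (ea i 0 (by decide) (h0 i)) rfl
    rw [e3, a2, adj_a3 _ _ _ (h0 i)] at a1
    exact a1
  have eπ : ∀ i, π i = i + π 0 := by
    have a0 := es 0
    have a1 := es 1
    have a2 := es 2
    have a3 := es 3
    intro i
    fin_cases i
    · simp
    · change π 1 = 1 + π 0
      rw [add_comm, ← a0]; rfl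
    · change π 2 = 2 + π 0
      have b1 : π 2 = π 1 + 1 := a1
      have b0 : π 1 = π 0 + 1 := a0
      rw [b1, b0, add_assoc, add_comm]; rfl
    · change π 3 = 3 + π 0
      have b2 : π 3 = π 2 + 1 := a2
      have b1 : π 2 = π 1 + 1 := a1
      have b0 : π 1 = π 0 + 1 := a0
      rw [b2, b1, b0, add_assoc, add_assoc, add_comm]; rfl
    · change π 4 = 4 + π 0
      have b3 : π 4 = π 3 + 1 := a3
      have b2 : π 3 = π 2 + 1 := a2
      have b1 : π 2 = π 1 + 1 := a1
      have b0 : π 1 = π 0 + 1 := a0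
      rw [b3, b2, b1, b0, add_assoc, add_assoc, add_assoc, add_comm]; rfl
  refine ⟨⟨fun i => if (φ (i, 0)).2 = 0 then 0 else 1, π 0⟩, ?_⟩
  ext p : 1
  change actV _ p = φ p
  obtain ⟨i, s⟩ := p
  fin_cases s
  · refine Prod.ext ?_ ?_
    · change i + π 0 = (φ (i, 0)).1
      rw [ea i 0 (by decide) (h0 i)]
      exact (eπ i).symm
    · change twist (if (φ (i, 0)).2 = 0 then 0 else 1) 0 = (φ (i, 0)).2
      have a1 := h0 i
      generalize (φ (i, 0)).2 = t at a1
      revert t
      decide
  · refine Prod.ext ?_ ?_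
    · change i + π 0 = (φ (i, 1)).1
      rw [ea i 1 (by decide) (h1 i)]
      exact (eπ i).symm
    · change twist (if (φ (i, 0)).2 = 0 then 0 else 1) 1 = (φ (i, 1)).2
      have a1 := h0 i
      have a2 := h1 i
      have a3 : (φ (i, 0)).2 ≠ (φ (i, 1)).2 := by
        intro h
        have a4 : φ (i, 0) = φ (i, 1) :=
          Prod.ext ((ea i 0 (by decide) (h0 i)).trans (ea i 1 (by decide) (h1 i)).symm) h
        have a5 := φ.injective a4
        exact absurd (congrArg Prod.snd a5) (by decide : ¬ ((0 : Fin 4) = 1))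
      generalize (φ (i, 0)).2 = t at a1 a3
      generalize (φ (i, 1)).2 = t' at a2 a3
      revert t t'
      decide
  · refine Prod.ext ?_ ?_
    · change i + π 0 = (φ (i, 2)).1
      rw [e2]
      exact (eπ i).symm
    · change twist (if (φ (i, 0)).2 = 0 then 0 else 1) 2 = (φ (i, 2)).2
      rw [h2]
      exact (twist_two _ _).2 rfl
  · refine Prod.ext ?_ ?_
    · change i + π 0 = (φ (i, 3)).1
      rw [e3]
      exact (eπ i).symm
    · change twist (if (φ (i, 0)).2 = 0 then 0 else 1) 3 = (φ (i, 3)).2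
      rw [h3]
      exact (twist_three _ _).2 rfl

/-- The automorphism group of the graph is `C_2 wr C_5`. -/
noncomputable def FFe : WW ≃* (Γ₀ ≃g Γ₀) :=
  MulEquiv.ofBijective (MonoidHom.mk' FF FF_mul) ⟨FF_inj, FF_surj⟩

theorem FFe_apply (g : WW) (p : VV) : FFe g p = actV g p := rfl

theorem five : IsBaseSize (Γ₀ ≃g Γ₀) VV 5 := by
  classical
  refine ⟨⟨Finset.univ.image fun i : Fin 5 => ((i, 0) : VV), ?_, ?_⟩, ?_⟩
  · rw [Finset.card_image_of_injective _ (fun i j h => congrArg Prod.fst h)]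
    rfl
  · intro φ hφ
    obtain ⟨g, rfl⟩ := FFe.surjective φ
    have h1 : ∀ i, actV g (i, 0) = (i, 0) := fun i =>
      hφ (i, 0) (Finset.mem_image_of_mem _ (Finset.mem_univ i))
    have hg : g = 1 := by
      refine WW.ext (funext fun i => ?_) ?_
      · have h2 := congrArg Prod.snd (h1 i)
        simp only [actV] at h2
        change g.v i = 0
        revert h2
        generalize g.v i = a
        revert a
        decide
      · have h2 := congrArg Prod.fst (h1 0)
        simpa [actV] using h2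
    rw [hg, map_one]
  · rintro k ⟨B, rfl, hB⟩
    by_contra hlt
    push Not at hlt
    have h1 : ∃ i : Fin 5, i ∉ B.image Prod.fst := by
      by_contra hcon
      push Not at hcon
      have h2 : (Finset.univ : Finset (Fin 5)) ⊆ B.image Prod.fst := fun i _ => hcon i
      have h3 := Finset.card_le_card h2
      have h4 : (B.image Prod.fst).card ≤ B.card := Finset.card_image_le
      rw [Finset.card_univ, Fintype.card_fin] at h3
      omega
    obtain ⟨i, hi⟩ := h1
    have h2 := hB (FFe (io (Pi.single i 1))) (by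
      intro p hp
      have h3 : p.1 ≠ i := by
        rintro rfl
        exact hi (Finset.mem_image_of_mem _ hp)
      change actV _ p = p
      unfold actV io
      refine Prod.ext ?_ ?_
      · simp
      · simp only [Pi.single_eq_of_ne h3]
        exact twist_zero _)
    have h3 : io (Pi.single i 1) = 1 := FFe.injective (by rw [h2, map_one])
    have h4 := congrFun (io_inj h3) i
    rw [Pi.single_eq_same] at h4
    exact absurd h4 (by decide : ¬ ((1 : ZMod 2) = 0))

theorem five_mem : 5 ∈ determiningSet WW :=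
  ⟨VV, inferInstance, Γ₀, ⟨FFe⟩, five⟩

end Pool.Agent.Helper85.DetSet
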