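import Mathlib
import Pool.Agent.Helper85.DetSet.Defs
import Pool.Agent.Helper85.DetSet.Facts

set_option autoImplicit false

/-!
# No graph with automorphism group `C_2 wr C_5` has base size 4
-/

namespace Pool.Agent.Helper85.DetSet

open Pool.Agent.Helper36.BaseSize

section

variable {V : Type} {Γ : SimpleGraph V} (e : WW ≃* (Γ ≃g Γ))

theorem act_mul (g h : WW) (u : V) : e (g * h) u = e g (e h u) := by
  rw [map_mul]
  rfl

theorem act_one (u : V) : e 1 u = u := by
  rw [map_one]
  rfl

theorem act_inv {g : WW} {u : V} (h : e g u = u) : e g⁻¹ u = u := by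
  conv_lhs => rw [← h]
  rw [← act_mul, inv_mul_cancel, act_one]

theorem act_faithful {g : WW} (h : ∀ u, e g u = u) : g = 1 := by
  apply e.injective
  rw [map_one]
  ext u
  exact h u

theorem act_pow {g : WW} {u : V} (h : e g u = u) (m : ℕ) : e (g ^ m) u = u := by
  induction m with
  | zero => rw [pow_zero, act_one]
  | succ m ih => rw [pow_succ, act_mul, h, ih]

/-- The sign vectors fixing `u`. -/
def US (u : V) : Submodule (ZMod 2) NN where
  carrier := {n | e (io n) u = u}
  zero_mem' := by
    change e (io 0) u = u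
    rw [io_zero, act_one]
  add_mem' := by
    intro a b ha hb
    change e (io (a + b)) u = u
    rw [io_add, act_mul]
    change e (io a) u = u at ha
    change e (io b) u = u at hb
    rw [hb, ha]
  smul_mem' := by
    intro c n hn
    change e (io (c • n)) u = u
    have hc : c = 0 ∨ c = 1 := by
      revert c
      decide
    rcases hc with rfl | rfl
    · rw [zero_smul, io_zero, act_one]
    · rw [one_smul]
      exact hn

theorem mem_US {u : V} {n : NN} : n ∈ US e u ↔ e (io n) u = u := Iff.rfl

theorem US_rot {g : WW} {u : V} (h : e g u = u) (hb : g.b ≠ 0) (k : Fin 5) {n : NN}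
    (hn : n ∈ US e u) : rot k n ∈ US e u := by
  obtain ⟨m, hm⟩ := exists_smul g.b hb k
  have h1 : (g ^ (m : ℕ)).b = k := by rw [pow_b, hm]
  have h2 := act_pow e h (m : ℕ)
  rw [mem_US] at hn ⊢
  rw [← h1, ← conj_io', act_mul, act_mul, act_inv e h2, hn, h2]

theorem US_shift (k : Fin 5) (u : V) (n : NN) : n ∈ US e (e (Sh k) u) ↔ rot (-k) n ∈ US e u := by
  have h1 : (Sh k)⁻¹ * io n * Sh k = io (rot (-k) n) := conj_io (Sh k) n
  rw [mem_US, mem_US, ← h1, act_mul, act_mul]
  constructor
  · intro h
    rw [h, ← act_mul, inv_mul_cancel, act_one]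
  · intro h
    have h2 := congrArg (e (Sh k)) h
    rw [← act_mul, mul_inv_cancel, act_one] at h2
    exact h2

theorem US_io (m : NN) (u : V) (n : NN) : n ∈ US e (e (io m) u) ↔ n ∈ US e u := by
  have h1 : io n * io m = io m * io n := by rw [← io_add, ← io_add, add_comm]
  rw [mem_US, mem_US, ← act_mul, h1, act_mul]
  exact (e (io m)).injective.eq_iff

theorem b_zero {u : V} (hU : ∀ n ∈ US e u, n = 0 ∨ n = 1) {g : WW} (h1 : e g u = u)
    (h2 : e g (e (io e0) u) = e (io e0) u) : g.b = 0 := by
  have h3 : rot (-g.b) e0 + e0 ∈ US e u := by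
    rw [mem_US, ← comm_io, act_mul, act_mul e _ g, h2, act_mul e g⁻¹, ← act_mul e (io e0)⁻¹,
      inv_mul_cancel, act_one, act_inv e h1]
  have h4 := e0_fact _ (hU _ h3)
  exact neg_eq_zero.1 h4

/-- The annihilator. -/
def Ann (u : V) (x : NN) : Prop := ∀ n ∈ US e u, dot x n = 0

theorem mem_US_of {u : V} {n : NN} (h : ∀ x, Ann e u x → dot x n ≠ 1) : n ∈ US e u := by
  by_contra hn
  obtain ⟨x, hx, hx1⟩ := exists_dot (US e u) n hn
  exact h x hx hx1

theorem Ann_add {u : V} {x y : NN} (hx : Ann e u x) (hy : Ann e u y) : Ann e u (x + y) := by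
  intro n hn
  rw [dot_add_left, hx n hn, hy n hn, add_zero]

theorem Ann_io (m : NN) (u : V) (x : NN) : Ann e (e (io m) u) x ↔ Ann e u x := by
  unfold Ann
  simp only [US_io]

end

section

variable {V : Type} {Γ : SimpleGraph V} (e : WW ≃* (Γ ≃g Γ))

/-- Base sizes in terms of the abstract group. -/
theorem min_card (h : IsBaseSize (Γ ≃g Γ) V 4) (B : Finset V)
    (hB : ∀ g : WW, (∀ u ∈ B, e g u = u) → g = 1) : 4 ≤ B.card := by
  apply h.2
  refine ⟨B, rfl, fun φ hφ => ?_⟩
  have h1 := hB (e.symm φ) (fun u hu => by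
    rw [MulEquiv.apply_symm_apply]
    exact hφ u hu)
  rw [← e.apply_symm_apply φ, h1, map_one]

theorem exists_base (h : IsBaseSize (Γ ≃g Γ) V 4) : ∃ B : Finset V, B.card = 4 ∧
    ∀ g : WW, (∀ u ∈ B, e g u = u) → g = 1 := by
  obtain ⟨B, hB, hB1⟩ := h.1
  refine ⟨B, hB, fun g hg => ?_⟩
  have h1 := hB1 (e g) hg
  apply e.injective
  rw [h1, map_one]

theorem base3 (h : IsBaseSize (Γ ≃g Γ) V 4) (a b c : V)
    (hB : ∀ g : WW, e g a = a → e g b = b → e g c = c → g = 1) : False := by
  classical
  have h1 := min_card e h {a, b, c} (fun g hg => hB g (hg a (by simp)) (hg b (by simp))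
    (hg c (by simp)))
  have h2 : ({a, b, c} : Finset V).card ≤ 3 := Finset.card_le_three
  omega

theorem case_a (h : IsBaseSize (Γ ≃g Γ) V 4) (u : V) (x y : NN) (hx : Ann e u x)
    (hy : Ann e u y) (hx0 : x ≠ 0) (hy0 : y ≠ 0) (hx1 : x ≠ 1) (hy1 : y ≠ 1) (hxy : x ≠ y)
    (hs : x + y ≠ 1) : False := by
  by_cases hinv : ∃ g, e g u = u ∧ g.b ≠ 0
  · obtain ⟨g, hg, hgb⟩ := hinv
    have hU : ∀ n ∈ US e u, n = 0 ∨ n = 1 := by
      intro n hn
      rcases caseA x y hx0 hy0 hx1 hy1 hxy hs with ⟨i, j, hij⟩ | ⟨i, hi⟩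
      · left
        have hi := US_rot e hg hgb i hn
        have hj := US_rot e hg hgb j hn
        exact hij n (hx _ hn) (hy _ hn) (hx _ hi) (hy _ hi) (hx _ hj) (hy _ hj)
      · have hi' := US_rot e hg hgb i hn
        exact hi n (hx _ hn) (hy _ hn) (hx _ hi') (hy _ hi')
    have hex : ∃ c, e (io 1) c ≠ c := by
      by_contra hcon
      push Not at hcon
      have h1 := io_inj (act_faithful e hcon)
      exact one_ne_zero h1
    obtain ⟨c, hc⟩ := hex
    refine base3 e h u (e (io e0) u) c fun g' h1 h2 h3 => ?_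
    have hb := b_zero e hU h1 h2
    have hg' := eq_io_of_b hb
    rw [hg'] at h1 h3
    rcases hU _ h1 with h4 | h4
    · rw [hg', h4, io_zero]
    · rw [h4] at h3
      exact absurd h3 hc
  · push Not at hinv
    rcases caseA x y hx0 hy0 hx1 hy1 hxy hs with ⟨i, j, hij⟩ | ⟨i, hi⟩
    · refine base3 e h u (e (Sh (-i)) u) (e (Sh (-j)) u) fun g h1 h2 h3 => ?_
      have hg := eq_io_of_b (hinv g h1)
      rw [hg] at h1 h2 h3
      have k1 := (US_shift e (-i) u _).1 h2
      have k2 := (US_shift e (-j) u _).1 h3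
      rw [neg_neg] at k1 k2
      rw [hg, hij g.v (hx _ h1) (hy _ h1) (hx _ k1) (hy _ k1) (hx _ k2) (hy _ k2), io_zero]
    · have hex : ∃ c, e (io 1) c ≠ c := by
        by_contra hcon
        push Not at hcon
        have h1 := io_inj (act_faithful e hcon)
        exact one_ne_zero h1
      obtain ⟨c, hc⟩ := hex
      refine base3 e h u (e (Sh (-i)) u) c fun g h1 h2 h3 => ?_
      have hg := eq_io_of_b (hinv g h1)
      rw [hg] at h1 h2 h3
      have k1 := (US_shift e (-i) u _).1 h2
      rw [neg_neg] at k1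
      rcases hi g.v (hx _ h1) (hy _ h1) (hx _ k1) (hy _ k1) with h4 | h4
      · rw [hg, h4, io_zero]
      · rw [h4] at h3
        exact absurd h3 hc

theorem add_self_NN (x : NN) : x + x = 0 := by
  funext i
  exact CharTwo.add_self_eq_zero (x i)

/-- The property of the annihilators. -/
theorem trich (h : IsBaseSize (Γ ≃g Γ) V 4) (u : V) (x y : NN) (hx : Ann e u x)
    (hy : Ann e u y) : x = 0 ∨ y = 0 ∨ x = 1 ∨ y = 1 ∨ x = y ∨ x = y + 1 := by
  by_contra hcon
  push Not at hcon
  obtain ⟨h1, h2, h3, h4, h5, h6⟩ := hcon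
  refine case_a e h u x y hx hy h1 h2 h3 h4 h5 fun h7 => h6 ?_
  rw [← h7, add_comm x y, ← add_assoc, add_self_NN, zero_add]

/-- All annihilators have at most two elements: the base size is at least 5. -/
theorem case_b2 (h : IsBaseSize (Γ ≃g Γ) V 4)
    (hA : ∀ u, Ann e u 1 → ∀ x, Ann e u x → x = 0 ∨ x = 1) : False := by
  classical
  have key : ∀ u, ∃ x : NN, ∀ n, dot x n = 0 → n ∈ US e u := by
    intro u
    by_cases hex : ∃ x, Ann e u x ∧ x ≠ 0
    · obtain ⟨x, hx, hx0⟩ := hex
      refine ⟨x, fun n hn => mem_US_of e fun y hy hy1 => ?_⟩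
      have hy0 : y ≠ 0 := by
        rintro rfl
        rw [dot_zero_left] at hy1
        exact absurd hy1 (by decide)
      have hxy : x ≠ y := by
        rintro rfl
        rw [hn] at hy1
        exact absurd hy1 (by decide)
      rcases trich e h u x y hx hy with h1 | h1 | h1 | h1 | h1 | h1
      · exact hx0 h1
      · exact hy0 h1
      · subst h1
        rcases hA u hx y hy with h2 | h2
        · exact hy0 h2
        · exact hxy h2.symm
      · subst h1
        rcases hA u hy x hx with h2 | h2
        · exact hx0 h2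
        · exact hxy h2
      · exact hxy h1
      · have h2 : (1 : NN) = x + y := by
          rw [h1, add_comm y 1, add_assoc, add_self_NN, add_zero]
        have h3 : Ann e u 1 := by
          rw [h2]
          exact Ann_add e hx hy
        rcases hA u h3 x hx with h4 | h4
        · exact hx0 h4
        · rcases hA u h3 y hy with h5 | h5
          · exact hy0 h5
          · exact hxy (h4.trans h5.symm)
    · push Not at hex
      refine ⟨0, fun n _ => mem_US_of e fun y hy hy1 => ?_⟩
      rw [hex y hy, dot_zero_left] at hy1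
      exact absurd hy1 (by decide)
  choose X hX using key
  obtain ⟨B, hB, hB1⟩ := exists_base e h
  have hpig : ¬ Function.Injective (fun (n : NN) (u : B) => dot (X u) n) := by
    intro hinj
    have h1 := Fintype.card_le_of_injective _ hinj
    simp only [Fintype.card_fun, Fintype.card_fin, ZMod.card, Fintype.card_coe, hB] at h1
    norm_num at h1
  simp only [Function.Injective, not_forall] at hpig
  obtain ⟨n, m, hnm, hne⟩ := hpig
  have h1 : ∀ u ∈ B, e (io (n + m)) u = u := by
    intro u hu
    apply hX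
    rw [dot_add_right]
    have h2 := congrFun hnm ⟨u, hu⟩
    simp only at h2
    rw [h2]
    exact CharTwo.add_self_eq_zero _
  have h2 := io_inj (hB1 _ h1)
  apply hne
  calc n = n + (m + m) := by rw [add_self_NN, add_zero]
    _ = (n + m) + m := by rw [add_assoc]
    _ = m := by rw [h2, zero_add]

/-- Two vertices can be moved independently. -/
theorem adj_move (nw : NN) (u c : V) (hnw : ∀ x, Ann e u x → Ann e c x → dot x nw ≠ 1) :
    Γ.Adj (e (io nw) u) c ↔ Γ.Adj u c := by
  have h1 : nw ∈ US e u ⊔ US e c := by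
    by_contra hn
    obtain ⟨x, hx, hx1⟩ := exists_dot _ nw hn
    exact hnw x (fun n hn => hx n (Submodule.mem_sup_left hn))
      (fun n hn => hx n (Submodule.mem_sup_right hn)) hx1
  obtain ⟨a, ha, b, hb, rfl⟩ := Submodule.mem_sup.1 h1
  rw [mem_US] at ha hb
  have h2 : e (io (a + b)) u = e (io b) u := by
    rw [add_comm, io_add, act_mul, ha]
  rw [h2]
  conv_lhs => rw [← hb]
  exact (e (io b)).map_adj_iff

/-- Some annihilator contains the all-ones vector and another nonzero vector: there is an
automorphism of the graph outside the group. -/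
theorem case_b1 (h : IsBaseSize (Γ ≃g Γ) V 4) (v : V) (w : NN) (h1v : Ann e v 1)
    (hwv : Ann e v w) (hw0 : w ≠ 0) (hw1 : w ≠ 1) (hpar : dot w 1 = 0) : False := by
  classical
  have ne01 : (1 : ZMod 2) ≠ 0 := by decide
  have ww0 : w + 1 ≠ 0 := by
    intro h1
    apply hw1
    calc w = (w + 1) + 1 := by rw [add_assoc, add_self_NN, add_zero]
      _ = 1 := by rw [h1, zero_add]
  have ww1 : w + 1 ≠ 1 := fun h1 => hw0 (by simpa using h1)
  -- the stabiliser of `v`
  have hUv : ∀ n, dot 1 n = 0 → dot w n = 0 → n ∈ US e v := by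
    intro n hn1 hnw
    refine mem_US_of e fun x hx hx1 => ?_
    rcases trich e h v x w hx hwv with h1 | h1 | h1 | h1 | h1 | h1
    · rw [h1, dot_zero_left] at hx1
      exact ne01 hx1.symm
    · exact hw0 h1
    · rw [h1, hn1] at hx1
      exact ne01 hx1.symm
    · exact hw1 h1
    · rw [h1, hnw] at hx1
      exact ne01 hx1.symm
    · rw [h1, dot_add_left, hnw, hn1] at hx1
      exact ne01 hx1.symm
  obtain ⟨nw, hn1, -, hnw⟩ := factD w hw0 hw1 hpar 1 (by decide)
  set P : V → Prop := fun u => Ann e u w ∨ Ann e u (w + 1) with hP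
  have hPio : ∀ u, P (e (io nw) u) ↔ P u := by
    intro u
    simp only [hP, Ann_io]
  set τ : V → V := fun u => if P u then e (io nw) u else u with hτ
  have hinv : Function.Involutive τ := by
    intro u
    by_cases hu : P u
    · have h1 : τ u = e (io nw) u := if_pos hu
      have h2 : τ (e (io nw) u) = e (io nw) (e (io nw) u) := if_pos ((hPio u).2 hu)
      rw [h1, h2, ← act_mul, io_self, act_one]
    · have h1 : τ u = u := if_neg hu
      rw [h1, h1]
  have hmove : ∀ u c, P u → ¬ P c → (Γ.Adj (e (io nw) u) c ↔ Γ.Adj u c) := by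
    intro u c hu hc
    refine adj_move e nw u c fun x hxu hxc hx1 => ?_
    simp only [hP, not_or] at hu hc
    have hx0 : x ≠ 0 := by
      rintro rfl
      rw [dot_zero_left] at hx1
      exact ne01 hx1.symm
    have hx1' : x ≠ 1 := by
      rintro rfl
      rw [hn1] at hx1
      exact ne01 hx1.symm
    rcases hu with hu | hu
    · rcases trich e h u x w hxu hu with h1 | h1 | h1 | h1 | h1 | h1
      · exact hx0 h1
      · exact hw0 h1
      · exact hx1' h1
      · exact hw1 h1
      · exact hc.1 (h1 ▸ hxc)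
      · exact hc.2 (h1 ▸ hxc)
    · rcases trich e h u x (w + 1) hxu hu with h1 | h1 | h1 | h1 | h1 | h1
      · exact hx0 h1
      · exact ww0 h1
      · exact hx1' h1
      · exact ww1 h1
      · exact hc.2 (h1 ▸ hxc)
      · rw [add_assoc, add_self_NN, add_zero] at h1
        exact hc.1 (h1 ▸ hxc)
  have hadj : ∀ u c, Γ.Adj (τ u) (τ c) ↔ Γ.Adj u c := by
    intro u c
    by_cases hu : P u <;> by_cases hc : P c
    · have h1 : τ u = e (io nw) u := if_pos hu
      have h2 : τ c = e (io nw) c := if_pos hc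
      rw [h1, h2]
      exact (e (io nw)).map_adj_iff
    · have h1 : τ u = e (io nw) u := if_pos hu
      have h2 : τ c = c := if_neg hc
      rw [h1, h2]
      exact hmove u c hu hc
    · have h1 : τ u = u := if_neg hu
      have h2 : τ c = e (io nw) c := if_pos hc
      rw [h1, h2, Γ.adj_comm, hmove c u hc hu, Γ.adj_comm]
    · have h1 : τ u = u := if_neg hu
      have h2 : τ c = c := if_neg hc
      rw [h1, h2]
  let Φ : Γ ≃g Γ := ⟨hinv.toPerm τ, fun {u c} => hadj u c⟩
  set g : WW := e.symm Φ with hg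
  have hgτ : ∀ u, e g u = τ u := by
    intro u
    rw [hg, e.apply_symm_apply]
    rfl
  have hPv : P v := Or.inl hwv
  have hτv : τ v = e (io nw) v := if_pos hPv
  have hnv : e (io nw) v ≠ v := by
    intro h1
    have h2 := hwv nw h1
    rw [hnw] at h2
    exact ne01 h2
  have hnP : ∀ k : Fin 5, k ≠ 0 → ¬ P (e (Sh k) v) := by
    intro k hk
    obtain ⟨n, a1, a2, a3⟩ := factD w hw0 hw1 hpar (-k) (neg_ne_zero.2 hk)
    have a4 : n ∈ US e (e (Sh k) v) := by
      rw [US_shift]
      exact hUv _ (by rw [dot_one_rot, a1]) a2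
    rintro (h1 | h1)
    · have h2 := h1 n a4
      rw [a3] at h2
      exact ne01 h2
    · have h2 := h1 n a4
      rw [dot_add_left, a3, a1, add_zero] at h2
      exact ne01 h2
  have hfix : ∀ k : Fin 5, k ≠ 0 → e g (e (Sh k) v) = e (Sh k) v := by
    intro k hk
    rw [hgτ]
    exact if_neg (hnP k hk)
  have hb : g.b = 0 := by
    by_contra hb
    obtain ⟨n, a1, a2, a3⟩ := factD w hw0 hw1 hpar (-1) (by decide)
    have a4 : n ∈ US e (e (Sh 1) v) := by
      rw [US_shift]
      exact hUv _ (by rw [dot_one_rot, a1]) a2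
    have a5 := US_rot e (hfix 1 (by decide)) hb 1 a4
    rw [US_shift, rot_rot, neg_add_cancel, rot_zero] at a5
    have a6 := hwv n a5
    rw [a3] at a6
    exact ne01 a6
  have hgio := eq_io_of_b hb
  have hgv : g.v = 0 := by
    apply factB w hw0 hw1 hpar
    · have h1 : g.v ∈ US e (e (Sh 1) v) := by
        rw [mem_US, ← hgio]
        exact hfix 1 (by decide)
      rw [US_shift] at h1
      have h2 := h1v _ h1
      rwa [dot_one_rot] at h2
    · intro k hk
      have h1 : g.v ∈ US e (e (Sh (-k)) v) := by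
        rw [mem_US, ← hgio]
        exact hfix (-k) (neg_ne_zero.2 hk)
      rw [US_shift, neg_neg] at h1
      exact hwv _ h1
  have hg1 : g = 1 := by rw [hgio, hgv, io_zero]
  apply hnv
  rw [← hτv, ← hgτ, hg1, act_one]

include e in
theorem not_four (h : IsBaseSize (Γ ≃g Γ) V 4) : False := by
  by_cases hex : ∃ v x, Ann e v 1 ∧ Ann e v x ∧ x ≠ 0 ∧ x ≠ 1
  · obtain ⟨v, x, h1, hx, hx0, hx1⟩ := hex
    by_cases hpar : dot x 1 = 0
    · exact case_b1 e h v x h1 hx hx0 hx1 hpar
    · refine case_b1 e h v (x + 1) h1 (Ann_add e hx h1) ?_ ?_ ?_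
      · intro h2
        apply hx1
        calc x = (x + 1) + 1 := by rw [add_assoc, add_self_NN, add_zero]
          _ = 1 := by rw [h2, zero_add]
      · exact fun h2 => hx0 (by simpa using h2)
      · rw [dot_add_left]
        have h3 : dot (1 : NN) 1 = 1 := by decide
        rw [h3]
        revert hpar
        generalize dot x 1 = t
        revert t
        decide
  · push Not at hex
    refine case_b2 e h fun u hu x hx => ?_
    by_cases hx0 : x = 0
    · exact Or.inl hx0
    · exact Or.inr (hex u x hu hx hx0)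

end

end Pool.Agent.Helper85.DetSet
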